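import Mathlib
import Pool.Agent.H24.Recomb

namespace Pool.Agent.Results.MP_c7e24e_co.Disconnected

open Pool.Agent.H24.Recomb

theorem result : ∃ (n : ℕ) (G : SimpleGraph (Fin n)) (k : ℕ) (s : ℝ)
    (P Q : Finpartition (Finset.univ : Finset (Fin n))),
    Biconnected G ∧ 0 < k ∧ k ≤ n ∧ k ∣ n ∧ (n : ℝ) / k ≤ s ∧ IsBCP G k s P ∧ IsBCP G k s Q ∧
    ¬ Relation.ReflTransGen (fun A B => IsBCP G k s A ∧ IsBCP G k s B ∧ Recomb A B) P Q :=
  ⟨30, G0, 15, 2, P0, Q0, bicon, by norm_num, by norm_num, by norm_num, by norm_num, bcpP, bcpQ,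
    main⟩

end Pool.Agent.Results.MP_c7e24e_co.Disconnected
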